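import Mathlib
import Pool.Agent.R975.MM.Main

/-!
# The noisy min-max game on the `d`-ary tree has a critical point for all large `d`

The definitions are in `Pool.Agent.R975.MM.Law` and `Pool.Agent.R975.MM.Main`.

* The vertices of the rooted `d`-ary tree are the lists of elements of `Fin d`; the root is `[]`,
  the children of `v` are the lists `c :: v`, and the height of `v` is its length.
* `gm d p` is the product measure on the families `x : List (Fin d) ⊕ List (Fin d) → ℤ`: the
  coordinate `x (inl v)`, the cookie on the edge above `v`, is uniform on `{-1, 1}`, the coordinate
  `x (inr v)`, the boundary value of `v`, is `0` with probability `p` and `2` with probability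
  `1 - p`, and all the coordinates are independent.
* `val x m v` is the value of the vertex `v` when `m` levels remain below it: the boundary value of
  `v` if `m = 0`, otherwise the maximum (if the height of `v` is even) or the minimum (if it is odd)
  over the children `u` of `v` of the cookie on the edge above `u` plus the value of `u`.
* `law d p n` is the law of `V_n^{(p)} = val x (2 n) []` under `gm d p`, as a probability measure
  on `ℤ`; convergence in distribution is the weak convergence of these laws.
* `shift L` is the law of `V + 2` when `V` has law `L`.
-/

set_option autoImplicit false

namespace Pool.Agent.Results.MP_023911_pr.CriticalPoint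

open Filter Topology MeasureTheory Pool.Agent.R975.MM

/-- **Theorem.** There is `d₀` such that for every `d ≥ d₀` the laws of `V_n^{(1)}` converge, say
to `L`, and there is `pc ∈ (0, 1)` such that `V_n^{(p)}` converges in distribution to `L + 2` for
every `p < pc` and to `L` for every `p > pc`. -/
theorem result : ∃ d0 : ℕ, ∀ d, d0 ≤ d → ∃ L : ProbabilityMeasure ℤ,
    Tendsto (law d 1) atTop (𝓝 L) ∧ ∃ pc : unitInterval, 0 < pc ∧ pc < 1 ∧
      (∀ p, p < pc → Tendsto (law d p) atTop (𝓝 (shift L))) ∧
      (∀ p, pc < p → Tendsto (law d p) atTop (𝓝 L)) := main1

end Pool.Agent.Results.MP_023911_pr.CriticalPoint
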